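import Pool.Agent.N356.SP.DefsK
import Pool.Agent.N521.LS.Main3

set_option autoImplicit false

/-! GK21, GK22 (helper50, after helper521): main theorem for all `k` -/

namespace Pool.Agent.N50.LK

open Finset Pool.Agent.H384R3.SPk Pool.Agent.N356.SP

/-- GK15 -/
def HSplitK : Prop := ∀ {k : ℕ} (_hk : 6 ≤ k), SplitK k (BK k) (tK k)

/-- GK16a -/
def HMonoK : Prop := ∀ k : ℕ, ∃ K : ℕ, 0 < K ∧ ∀ A : Finset ℤ, A.Nonempty → (∀ a ∈ A, 0 < a) →
    ∃ A' ⊆ A, A'.Nonempty ∧ MonoK k A' ∧ A.card ≤ K * A'.card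

/-- GK16b -/
def HMainK : Prop := ∀ {k n : ℕ} (_hk : 1 ≤ k) (_hn : 2 ≤ n) {b : ℝ} (_hb : 0 < b) {B : ℝ → ℝ} {t₀ : ℝ}
    (_ht₀ : 0 ≤ t₀) (_hS : SplitK k B t₀) (_hR : RealOK n b B t₀)
    (A : Fin n → Finset ℤ) (_hA : ∀ i, (A i).Nonempty) (_hAp : ∀ i, ∀ a ∈ A i, 0 < a)
    (_hM : ∀ i, MonoK k (A i)),
    ∏ i, (((A i).card : ℝ) ^ (1 + b) / S k (A i) ^ 2) ^ (1 / ((n : ℝ) * b)) ≤
      ((prodset A).card : ℝ)

/-- GK20b -/
def HRealK : Prop := ∀ {k n : ℕ} (_hk : 6 ≤ k) (_hn : k ≤ n) {b : ℝ} (_hb : (n : ℝ) ^ b = cK k),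
    RealOK n b (BK k) (tK k)

/-- the constant `c_k^k` -/
noncomputable def gK (k : ℕ) : ℝ := (2 * (2 * (k : ℝ) - 1)) ^ k / ((2 * k).choose k : ℝ)

theorem gK_gt {k : ℕ} (hk : 6 ≤ k) : 1 < gK k := by
  have hk6 : (6 : ℝ) ≤ k := by exact_mod_cast hk
  have h1 : (((2 * k).choose k : ℕ) : ℝ) ≤ (4 : ℝ) ^ k := by
    have h2 : (2 * k).choose k ≤ 4 ^ k := by
      have := Nat.choose_le_two_pow (2 * k) k
      rwa [pow_mul] at this
    exact_mod_cast h2
  have h3 : (0 : ℝ) < ((2 * k).choose k : ℝ) := by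
    exact_mod_cast Nat.choose_pos (by omega)
  unfold gK
  rw [one_lt_div h3]
  refine lt_of_le_of_lt h1 ?_
  exact pow_lt_pow_left₀ (by linarith) (by norm_num) (by omega)

theorem cK_eq (k : ℕ) : cK k = gK k ^ ((1:ℝ) / k) := rfl

theorem cK_pow {k : ℕ} (hk : 6 ≤ k) : cK k ^ k = gK k := by
  have hk6 : (6 : ℝ) ≤ k := by exact_mod_cast hk
  have h1 := gK_gt hk
  rw [cK_eq, ← Real.rpow_natCast, ← Real.rpow_mul (by linarith), one_div_mul_cancel (by linarith),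
    Real.rpow_one]

theorem one_lt_cK {k : ℕ} (hk : 6 ≤ k) : 1 < cK k := by
  have hk6 : (6 : ℝ) ≤ k := by exact_mod_cast hk
  rw [cK_eq]
  exact Real.one_lt_rpow (gK_gt hk) (by positivity)

/-- one class of positive integers -/
theorem mono_posK (main_genK : HMainK) (splitK : HSplitK) (realOKK : HRealK)
    (S_pow : Pool.Agent.N521.LS.HPow) (one_le_S : Pool.Agent.N521.LS.HOne) {k n : ℕ} (hk : 6 ≤ k) (hn : k ≤ n) {β : ℝ}
    (hβ : gK k ≤ (n : ℝ) ^ β)
    (B : Finset ℤ) (hB : B.Nonempty) (hBp : ∀ b ∈ B, 0 < b) (hM : MonoK k B) :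
    (B.card : ℝ) ^ ((k : ℝ) + β) ≤
      ((sumset k B).card : ℝ) * ((prodset fun _ : Fin n => B).card : ℝ) ^ β := by
  have hk6 : (6 : ℝ) ≤ k := by exact_mod_cast hk
  have hn3 : (6:ℝ) ≤ n := by exact_mod_cast (by omega : 6 ≤ n)
  have hn0 : (0:ℝ) < n := by linarith
  have hlog : 0 < Real.log n := Real.log_pos (by linarith)
  have hlc : 0 < Real.log (cK k) := Real.log_pos (one_lt_cK hk)
  have hc0 : 0 < cK k := lt_trans one_pos (one_lt_cK hk)
  obtain ⟨b, hb⟩ : ∃ b, b = Real.log (cK k) / Real.log n := ⟨_, rfl⟩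
  have hb0 : 0 < b := by rw [hb]; positivity
  have hnb : (n : ℝ) ^ b = cK k := by
    rw [Real.rpow_def_of_pos hn0, hb, mul_div_cancel₀ _ hlog.ne', Real.exp_log hc0]
  have hnkb : (n : ℝ) ^ ((k : ℝ) * b) = gK k := by
    rw [mul_comm, Real.rpow_mul hn0.le, hnb, Real.rpow_natCast, cK_pow hk]
  have hle : (k : ℝ) * b ≤ β := by
    rw [← hnkb] at hβ
    exact (Real.rpow_le_rpow_left_iff (by linarith)).1 hβ
  have hS1 : 1 ≤ S k B := one_le_S (by omega) hB hBp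
  have hS0 : 0 < S k B := by linarith
  have hcard : (1:ℝ) ≤ B.card := by exact_mod_cast hB.card_pos
  have hcard0 : (0:ℝ) < B.card := by linarith
  have hP : (B.card : ℝ) ≤ (prodset fun _ : Fin n => B).card := by
    exact_mod_cast card_le_prodset (by omega) (fun _ => B) (fun _ => hB) (fun _ => hBp) ⟨0, by omega⟩
  have hm := main_genK (k := k) (n := n) (by omega) (by omega) hb0 (Real.sqrt_nonneg _) (splitK hk)
    (realOKK hk hn hnb) (fun _ => B) (fun _ => hB) (fun _ => hBp) (fun _ => hM)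
  obtain ⟨P, hPd⟩ : ∃ P : ℝ, P = ((prodset fun _ : Fin n => B).card : ℝ) := ⟨_, rfl⟩
  rw [← hPd] at hm hP ⊢
  have hP1 : 1 ≤ P := hcard.trans hP
  have hP0 : 0 < P := by linarith
  rw [Finset.prod_const, Finset.card_univ, Fintype.card_fin] at hm
  have hx0 : 0 ≤ (B.card : ℝ) ^ (1 + b) / S k B ^ 2 := by positivity
  rw [← Real.rpow_natCast, ← Real.rpow_mul hx0] at hm
  have e1 : 1 / ((n : ℝ) * b) * n = 1 / b := by field_simp
  rw [e1] at hm
  have h2 := Real.rpow_le_rpow (Real.rpow_nonneg hx0 _) hm hb0.le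
  rw [← Real.rpow_mul hx0, one_div_mul_cancel hb0.ne', Real.rpow_one,
    div_le_iff₀ (by positivity)] at h2
  have h3 := pow_le_pow_left₀ (by positivity) h2 k
  have e2 : ((B.card : ℝ) ^ (1 + b)) ^ k = (B.card : ℝ) ^ ((k : ℝ) + k * b) := by
    rw [← Real.rpow_natCast, ← Real.rpow_mul hcard0.le]
    congr 1
    ring
  have e3 : (P ^ b * S k B ^ 2) ^ k = S k B ^ (2 * k) * P ^ ((k : ℝ) * b) := by
    have : P ^ ((k : ℝ) * b) = (P ^ b) ^ k := by
      rw [← Real.rpow_natCast, ← Real.rpow_mul hP0.le]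
      congr 1
      ring
    rw [this, mul_pow, ← pow_mul]
    ring
  rw [e2, e3] at h3
  have h4 := S_pow (k := k) (by omega) hB hBp
  have h5 : (B.card : ℝ) ^ ((k : ℝ) + k * b) ≤ ((sumset k B).card : ℝ) * P ^ ((k : ℝ) * b) :=
    h3.trans (mul_le_mul_of_nonneg_right h4 (by positivity))
  have h6 : (B.card : ℝ) ^ (β - k * b) ≤ P ^ (β - k * b) :=
    Real.rpow_le_rpow hcard0.le hP (by linarith)
  have e4 : (B.card : ℝ) ^ ((k : ℝ) + β) = (B.card : ℝ) ^ ((k : ℝ) + k * b) * (B.card : ℝ) ^ (β - k * b) := by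
    rw [← Real.rpow_add hcard0]
    congr 1
    ring
  have e5 : P ^ β = P ^ ((k : ℝ) * b) * P ^ (β - k * b) := by
    rw [← Real.rpow_add hP0]
    congr 1
    ring
  rw [e4, e5]
  calc _ ≤ (((sumset k B).card : ℝ) * P ^ ((k : ℝ) * b)) * P ^ (β - k * b) :=
        mul_le_mul h5 h6 (by positivity) (by positivity)
    _ = _ := by ring

theorem beta_posK {k n : ℕ} (hk : 6 ≤ k) (hn : k ≤ n) {β : ℝ} (hβ : gK k ≤ (n : ℝ) ^ β) : 0 < β := by
  by_contra h
  push Not at h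
  have hn1 : (1:ℝ) ≤ n := by exact_mod_cast (by omega : 1 ≤ n)
  have := Real.rpow_le_one_of_one_le_of_nonpos hn1 h
  have := gK_gt hk
  linarith

/-- reduction to one class of positive integers -/
theorem coreK (main_genK : HMainK) (splitK : HSplitK) (realOKK : HRealK)
    (exists_monoK : HMonoK) (S_pow : Pool.Agent.N521.LS.HPow) (one_le_S : Pool.Agent.N521.LS.HOne) {k : ℕ} (hk : 6 ≤ k) : ∃ K : ℝ, 1 ≤ K ∧
      ∀ A : Finset ℤ, A.Nonempty → A ≠ {0} → ∃ B : Finset ℤ, B.Nonempty ∧ (∀ b ∈ B, 0 < b) ∧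
      (∀ k : ℕ, (sumset k B).card ≤ (sumset k A).card) ∧
      (∀ n : ℕ, (prodset fun _ : Fin n => B).card ≤ (prodset fun _ : Fin n => A).card) ∧
      ∀ n : ℕ, k ≤ n → ∀ β : ℝ, gK k ≤ (n : ℝ) ^ β → (A.card : ℝ) ^ ((k : ℝ) + β) ≤ K ^ ((k : ℝ) + β) *
        (((sumset k B).card : ℝ) * ((prodset fun _ : Fin n => B).card : ℝ) ^ β) := by
  obtain ⟨K, hK0, hK⟩ := exists_monoK k
  have hK1 : (1:ℝ) ≤ K := by exact_mod_cast hK0
  refine ⟨3 * K, by linarith, ?_⟩
  intro A hA h0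
  obtain ⟨D, hD, hDp, hAD, hs, hp⟩ := Pool.Agent.H201R3.SPk.taskG A hA h0
  obtain ⟨B, hBD, hB, hM, hDB⟩ := hK D hD hDp
  refine ⟨B, hB, fun b hb => hDp b (hBD hb), fun k => ?_, fun n => ?_, ?_⟩
  · exact (Finset.card_le_card (Pool.Agent.H201R3.SPk.sumset_mono hBD k)).trans (hs k)
  · exact (Finset.card_le_card (Pool.Agent.H201R3.SPk.prodset_mono hBD n)).trans (hp n)
  intro n hn β hβ
  have hβ0 := beta_posK hk hn hβ
  have hm := mono_posK main_genK splitK realOKK S_pow one_le_S hk hn hβ B hB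
    (fun b hb => hDp b (hBD hb)) hM
  have h1 : (A.card : ℝ) ≤ 3 * K * B.card := by
    have : A.card ≤ 3 * K * B.card := by nlinarith
    exact_mod_cast this
  have h2 : (A.card : ℝ) ^ ((k : ℝ) + β) ≤ (3 * K * B.card) ^ ((k : ℝ) + β) :=
    Real.rpow_le_rpow (by positivity) h1 (by positivity)
  rw [Real.mul_rpow (by positivity) (by positivity)] at h2
  exact h2.trans (mul_le_mul_of_nonneg_left hm (by positivity))

/-- GK21 -/
theorem mainK (main_genK : HMainK) (splitK : HSplitK) (realOKK : HRealK)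
    (exists_monoK : HMonoK) (S_pow : Pool.Agent.N521.LS.HPow) (one_le_S : Pool.Agent.N521.LS.HOne) {k : ℕ} (hk : 6 ≤ k) :
    ∃ K : ℝ, 1 ≤ K ∧ ∀ n : ℕ, k ≤ n → ∀ β : ℝ,
    (2 * (2 * (k : ℝ) - 1)) ^ k / ((2 * k).choose k : ℝ) ≤ (n : ℝ) ^ β →
    ∀ A : Finset ℤ, A.Nonempty →
      (A.card : ℝ) ^ ((k : ℝ) + β) ≤ K ^ ((k : ℝ) + β) *
        (((sumset k A).card : ℝ) * ((prodset fun _ : Fin n => A).card : ℝ) ^ β) := by
  obtain ⟨K, hK1, hK⟩ := coreK main_genK splitK realOKK exists_monoK S_pow one_le_S hk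
  refine ⟨K, hK1, ?_⟩
  intro n hn β hβ A hA
  have hβ0 := beta_posK hk hn hβ
  by_cases h0 : A = {0}
  · have h1 : (1:ℝ) ≤ (sumset k A).card := by exact_mod_cast card_pos_sum k hA
    have h2 : (1:ℝ) ≤ (prodset fun _ : Fin n => A).card := by exact_mod_cast card_pos_prod n hA
    have h3 : (1:ℝ) ≤ ((prodset fun _ : Fin n => A).card : ℝ) ^ β :=
      Real.one_le_rpow h2 hβ0.le
    have h4 : (1:ℝ) ≤ K ^ ((k : ℝ) + β) := Real.one_le_rpow hK1 (by positivity)
    have h5 : (A.card : ℝ) ^ ((k : ℝ) + β) = 1 := by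
      rw [h0, Finset.card_singleton, Nat.cast_one, Real.one_rpow]
    rw [h5]
    exact one_le_mul_of_one_le_of_one_le h4 (one_le_mul_of_one_le_of_one_le h1 h3)
  · obtain ⟨B, -, -, hs, hp, hB⟩ := hK A hA h0
    refine (hB n hn β hβ).trans (mul_le_mul_of_nonneg_left ?_ (by positivity))
    have h3 : ((sumset k B).card : ℝ) ≤ (sumset k A).card := by exact_mod_cast hs k
    have h4 : ((prodset fun _ : Fin n => B).card : ℝ) ≤ (prodset fun _ : Fin n => A).card := by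
      exact_mod_cast hp n
    exact mul_le_mul h3 (Real.rpow_le_rpow (by positivity) h4 hβ0.le) (by positivity)
      (by positivity)

/-- GK22 -/
theorem maxK (main_genK : HMainK) (splitK : HSplitK) (realOKK : HRealK)
    (exists_monoK : HMonoK) (S_pow : Pool.Agent.N521.LS.HPow) (one_le_S : Pool.Agent.N521.LS.HOne) {k : ℕ} (hk : 6 ≤ k) :
    ∃ K : ℝ, 1 ≤ K ∧ ∀ N : ℕ, k ≤ N → ∀ A : Finset ℤ, A.Nonempty →
    ((A.card : ℝ) / K) ^
      ((k * Real.log N + Real.log ((2 * (2 * (k : ℝ) - 1)) ^ k / ((2 * k).choose k : ℝ))) /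
        (Real.log N + Real.log ((2 * (2 * (k : ℝ) - 1)) ^ k / ((2 * k).choose k : ℝ)))) ≤
      max ((sumset N A).card : ℝ) ((prodset fun _ : Fin N => A).card : ℝ) := by
  have hgK : (2 * (2 * (k : ℝ) - 1)) ^ k / ((2 * k).choose k : ℝ) = gK k := rfl
  rw [hgK]
  have hg1 := gK_gt hk
  obtain ⟨K, hK1, hK⟩ := coreK main_genK splitK realOKK exists_monoK S_pow one_le_S hk
  have hK0 : 0 < K := by linarith
  refine ⟨K, hK1, ?_⟩
  intro n hn A hA
  have hn3 : (6:ℝ) ≤ n := by exact_mod_cast (by omega : 6 ≤ n)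
  have hn0 : (0:ℝ) < n := by linarith
  have hlog : 0 < Real.log n := Real.log_pos (by linarith)
  have hlk : 0 < Real.log (gK k) := Real.log_pos hg1
  obtain ⟨β, hβ⟩ : ∃ β, β = Real.log (gK k) / Real.log n := ⟨_, rfl⟩
  have hβ0 : 0 < β := by rw [hβ]; positivity
  have hcond : gK k ≤ (n : ℝ) ^ β := by
    rw [Real.rpow_def_of_pos hn0, hβ, mul_div_cancel₀ _ hlog.ne', Real.exp_log (by linarith)]
  obtain ⟨X, hX⟩ : ∃ X : ℝ, X = max ((sumset n A).card : ℝ)
    ((prodset fun _ : Fin n => A).card : ℝ) := ⟨_, rfl⟩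
  rw [← hX]
  have hX1 : (1:ℝ) ≤ X := by
    rw [hX]
    exact le_max_of_le_left (by exact_mod_cast card_pos_sum n hA)
  have key : (A.card : ℝ) ^ ((k : ℝ) + β) ≤ K ^ ((k : ℝ) + β) * X ^ (1 + β) := by
    by_cases h0 : A = {0}
    · have h4 : (1:ℝ) ≤ K ^ ((k : ℝ) + β) := Real.one_le_rpow hK1 (by positivity)
      have h5 : (A.card : ℝ) ^ ((k : ℝ) + β) = 1 := by
        rw [h0, Finset.card_singleton, Nat.cast_one, Real.one_rpow]
      rw [h5]
      exact one_le_mul_of_one_le_of_one_le h4 (Real.one_le_rpow hX1 (by positivity))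
    · obtain ⟨B, hBn, hBp, hs, hp, hB⟩ := hK A hA h0
      refine (hB n hn β hcond).trans (mul_le_mul_of_nonneg_left ?_ (by positivity))
      have h3 : ((sumset k B).card : ℝ) ≤ X := by
        rw [hX]
        refine le_trans ?_ (le_max_left _ _)
        exact_mod_cast ((Pool.Agent.H449R3.SPkH.taskH B hBn hBp k n hn).1.trans (hs n))
      have h4 : ((prodset fun _ : Fin n => B).card : ℝ) ≤ X := by
        rw [hX]
        refine le_trans ?_ (le_max_right _ _)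
        exact_mod_cast hp n
      calc _ ≤ X * X ^ β :=
            mul_le_mul h3 (Real.rpow_le_rpow (by positivity) h4 hβ0.le) (by positivity)
              (by linarith)
        _ = _ := by rw [Real.rpow_add (by linarith), Real.rpow_one]
  have hden : 0 < 1 + β := by positivity
  have hX0 : 0 ≤ X := by linarith
  have h9 : ((A.card : ℝ) / K) ^ ((k : ℝ) + β) ≤ X ^ (1 + β) := by
    rw [Real.div_rpow (by positivity) hK0.le, div_le_iff₀ (by positivity),
      mul_comm (X ^ (1 + β))]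
    exact key
  have h10 := Real.rpow_le_rpow (by positivity) h9 (show (0:ℝ) ≤ 1 / (1 + β) by positivity)
  rw [← Real.rpow_mul (by positivity), ← Real.rpow_mul hX0, mul_one_div_cancel hden.ne',
    Real.rpow_one] at h10
  have e3 : ((k : ℝ) + β) * (1 / (1 + β)) =
      (k * Real.log n + Real.log (gK k)) / (Real.log n + Real.log (gK k)) := by
    rw [hβ]
    field_simp
  rwa [e3] at h10

end Pool.Agent.N50.LK
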