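import Pool.Agent.N356.SP.DefsK
import Pool.Agent.N803.LS.Tang

/-!
# GK20b (helper50, after helper966): assembly of the real inequality for all `k`
-/

set_option autoImplicit false

namespace Pool.Agent.N50.LK

open Pool.Agent.N356.SP
open scoped Topology

/-- GK19 -/
def HGoodK : Prop := ∀ {k n : ℕ} (_hk : 6 ≤ k) (_hn : k ≤ n) {b : ℝ} (_hb : (n : ℝ) ^ b = cK k),
    Good' n b (cK k) ∧ (1 - 1 / (n : ℝ)) * b ≤ 1 ∧
      (1 + (1 - 1 / (n : ℝ)) * (13 / (10 * k))) ^ (1 + b) ≤ cK k * (13 / (10 * k))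

/-- GK20a -/
def HCurveK : Prop := ∀ {k n : ℕ} (_hk : 6 ≤ k) (_hn : k ≤ n) {b : ℝ} (_hb0 : 0 < b)
    (_hb1 : 1 ≤ ((n:ℝ) - 1) * b)
    (_hb2 : (1 - 1 / (n : ℝ)) * b ≤ 1) {y : ℝ} (_hy0 : 0 ≤ y) (_hy1 : y ≤ 13 / (10 * k)),
    (1 + (1 - 1 / (n:ℝ)) * y) ^ ((1 + b) / 2) *
        Nb (1 / k) (k * y * (1 + y / 2) ^ 2) ^ ((1:ℝ) / (2 * k)) ≤
      (1 - y / n) ^ (-((((n:ℝ) - 1) * b - 1) / 2)) + y * (1 + y / 2)

theorem cK_pos {k : ℕ} (hk : 1 ≤ k) : 0 < cK k := by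
  unfold cK
  have h1 : (1 : ℝ) ≤ k := by exact_mod_cast hk
  have h2 : (0 : ℝ) < ((2 * k).choose k : ℝ) := by
    exact_mod_cast Nat.choose_pos (by omega)
  apply Real.rpow_pos_of_pos
  apply div_pos _ h2
  apply pow_pos
  linarith

theorem y_small {k : ℕ} (hk : 6 ≤ k) {Y : ℝ} (hY0 : 0 ≤ Y) (hY1 : Y ≤ 13 / (10 * k)) :
    k * Y * (1 + Y / 2) ^ 2 ≤ 17 / 10 := by
  have hk6 : (6 : ℝ) ≤ k := by exact_mod_cast hk
  have h1 : k * Y ≤ 13 / 10 := by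
    calc (k : ℝ) * Y ≤ k * (13 / (10 * k)) := mul_le_mul_of_nonneg_left hY1 (by linarith)
      _ = 13 / 10 := by field_simp
  have h2 : Y ≤ 13 / 60 := by
    refine hY1.trans ?_
    rw [div_le_div_iff₀ (by positivity) (by norm_num)]
    linarith
  have h3 : (1 + Y / 2) ^ 2 ≤ (133 / 120) ^ 2 := pow_le_pow_left₀ (by linarith) (by linarith) 2
  have h4 : 0 ≤ (k : ℝ) * Y := by positivity
  calc k * Y * (1 + Y / 2) ^ 2 ≤ 13 / 10 * (133 / 120) ^ 2 := mul_le_mul h1 h3 (by positivity) (by norm_num)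
    _ ≤ 17 / 10 := by norm_num

theorem kt_eq {k : ℕ} (hk : 6 ≤ k) {Y : ℝ} (hY0 : 0 ≤ Y) :
    k * cK k * (√(Y / cK k) * (1 + Y / 2)) ^ 2 = k * Y * (1 + Y / 2) ^ 2 := by
  have hc := cK_pos (by omega : 1 ≤ k)
  rw [mul_pow, Real.sq_sqrt (by positivity)]
  field_simp

theorem t_le {k : ℕ} (hk : 6 ≤ k) {Y : ℝ} (hY0 : 0 ≤ Y) (hY1 : Y ≤ 13 / (10 * k)) :
    √(Y / cK k) * (1 + Y / 2) ≤ tK k := by
  have hc := cK_pos (by omega : 1 ≤ k)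
  have hk6 : (6 : ℝ) ≤ k := by exact_mod_cast hk
  unfold tK
  apply Real.le_sqrt_of_sq_le
  rw [le_div_iff₀ (by positivity)]
  have h1 := kt_eq hk hY0
  have h2 := y_small hk hY0 hY1
  calc (√(Y / cK k) * (1 + Y / 2)) ^ 2 * (10 * k * cK k) =
        10 * (k * cK k * (√(Y / cK k) * (1 + Y / 2)) ^ 2) := by ring
    _ = 10 * (k * Y * (1 + Y / 2) ^ 2) := by rw [h1]
    _ ≤ 17 := by linarith

/-- the case `Q < 1` -/
theorem lt_case (goodK : HGoodK) (curveK : HCurveK) {k n : ℕ} (hk : 6 ≤ k) (hn : k ≤ n) {b : ℝ}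
    (hb : (n : ℝ) ^ b = cK k) {φ Q : ℝ} (hφ : 0 < φ) (hQ0 : 0 < Q) (hQ1 : Q < 1)
    (H : ∀ t, 0 ≤ t → t ≤ tK k → √φ + t * √Q ≤ BK k t) {u : ℝ} (hu0 : 0 ≤ u) (hu1 : u ≤ 1) :
    φ * (1 - u) ^ ((n : ℝ) * b) ≤ (1 - (Q * u ^ b) ^ (1 / (1 + b))) ^ (1 + b) := by
  obtain ⟨hG, hb2, hb3⟩ := goodK hk hn hb
  have hc0 := cK_pos (by omega : 1 ≤ k)
  have hb0 := hG.hβ
  have hk6 : (6 : ℝ) ≤ k := by exact_mod_cast hk
  have hn3 : (6 : ℝ) ≤ n := by exact_mod_cast (by omega : 6 ≤ n)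
  have hn0 : (0 : ℝ) < n := by linarith
  obtain ⟨Y, hY0, hpY, hY⟩ := Pool.Agent.N803.LS.exists_y' hG hQ0 hQ1
  obtain ⟨Y0, hY0d⟩ : ∃ Y0 : ℝ, Y0 = 13 / (10 * k) := ⟨_, rfl⟩
  have hY0p : 0 < Y0 := by rw [hY0d]; positivity
  rw [← hY0d] at hb3
  have hY1 : Y ≤ Y0 := by
    by_contra hcon
    push Not at hcon
    have h1 := (Pool.Agent.N803.LS.sign_y' hG hQ0 hQ1 hY0 hpY hY).1 Y0 hY0p.le hcon.le
    have h2 : Q * (1 + (1 - 1 / (n : ℝ)) * Y0) ^ (1 + b) ≤ Q * (cK k * Y0) :=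
      mul_le_mul_of_nonneg_left hb3 hQ0.le
    have h3 : 0 < cK k * Y0 := by positivity
    nlinarith
  have hC := curveK hk hn hb0 hG.hnp hb2 hY0.le (by rw [← hY0d]; exact hY1)
  rw [← kt_eq hk hY0.le] at hC
  set η : ℝ := 1 / (n : ℝ) with hη
  have hη0 : 0 < η := by positivity
  have hη1 : η ≤ 1 / 6 := one_div_le_one_div_of_le (by norm_num) hn3
  set P : ℝ := 1 + (1 - η) * Y with hP
  have hP0 : 0 < P := by
    have : 0 ≤ (1 - η) * Y := mul_nonneg (by linarith) hY0.le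
    linarith
  have e2 : -((((n : ℝ) - 1) * b - 1) / 2) = (1 - ((n : ℝ) - 1) * b) / 2 := by ring
  rw [e2] at hC
  set W : ℝ := P ^ ((1 + b) / 2) with hW
  have hW0 : 0 < W := Real.rpow_pos_of_pos hP0 _
  have hW2 : W ^ 2 = P ^ (1 + b) := by
    rw [hW, ← Real.rpow_natCast, ← Real.rpow_mul hP0.le]
    congr 1
    push_cast
    ring
  -- the product
  have hprod : √(Y / cK k) * (1 + Y / 2) * √Q * W = Y * (1 + Y / 2) := by
    have h1 : √Q * W = √(cK k * Y) := by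
      have h2 : √Q * W = √(Q * W ^ 2) := by
        rw [Real.sqrt_mul hQ0.le, Real.sqrt_sq hW0.le]
      rw [h2, hW2, hY]
    have h3 : √(Y / cK k) * √(cK k * Y) = Y := by
      rw [← Real.sqrt_mul (by positivity)]
      have h4 : Y / cK k * (cK k * Y) = Y ^ 2 := by field_simp
      rw [h4, Real.sqrt_sq hY0.le]
    calc √(Y / cK k) * (1 + Y / 2) * √Q * W = (1 + Y / 2) * (√(Y / cK k) * (√Q * W)) := by ring
      _ = (1 + Y / 2) * Y := by rw [h1, h3]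
      _ = _ := by ring
  have hH := H _ (by positivity) (t_le hk hY0.le (by rw [← hY0d]; exact hY1))
  unfold BK at hH
  set R : ℝ := Nb (1 / k) (k * cK k * (√(Y / cK k) * (1 + Y / 2)) ^ 2) ^ ((1:ℝ) / (2 * k)) with hR
  have hYη : 0 < 1 - Y / n := by
    have h1 : Y / n = Y * η := by rw [hη]; ring
    have h2 : Y0 ≤ 1 := by
      rw [hY0d, div_le_one (by positivity)]
      linarith
    rw [h1]
    nlinarith
  have hmain : √φ * W ≤ (1 - Y / n) ^ ((1 - ((n : ℝ) - 1) * b) / 2) := by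
    have h1 := mul_le_mul_of_nonneg_right hH hW0.le
    have h2 : (√φ + √(Y / cK k) * (1 + Y / 2) * √Q) * W = √φ * W + Y * (1 + Y / 2) := by
      rw [add_mul, hprod]
    rw [h2] at h1
    linarith
  refine le_trans ?_ (Pool.Agent.N803.LS.min_u' hG hQ0 hQ1 hY0 hpY hY hu0 hu1)
  apply mul_le_mul_of_nonneg_right _ (Real.rpow_nonneg (by linarith) _)
  have hq : (1 - Y / (n : ℝ)) / ((1 + (1 - 1 / (n : ℝ)) * Y) ^ ((1 + b) / 2) *
      (1 - Y / (n : ℝ)) ^ ((((n : ℝ) - 1) * b + 1) / 2)) =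
      (1 - Y / n) ^ ((1 - ((n : ℝ) - 1) * b) / 2) / W := by
    have h1 : (1 - Y / (n : ℝ)) ^ ((1 - ((n : ℝ) - 1) * b) / 2) *
        (1 - Y / (n : ℝ)) ^ ((((n : ℝ) - 1) * b + 1) / 2) = 1 - Y / n := by
      rw [← Real.rpow_add hYη]
      have : (1 - ((n : ℝ) - 1) * b) / 2 + (((n : ℝ) - 1) * b + 1) / 2 = 1 := by ring
      rw [this, Real.rpow_one]
    have h2 : 0 < (1 - Y / (n : ℝ)) ^ ((((n : ℝ) - 1) * b + 1) / 2) :=
      Real.rpow_pos_of_pos hYη _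
    have h3 : (1 + (1 - 1 / (n : ℝ)) * Y) ^ ((1 + b) / 2) = W := by rw [hW, hP, hη]
    rw [h3, div_eq_div_iff (by positivity) hW0.ne']
    nth_rewrite 1 [← h1]
    ring
  rw [hq]
  have h5 : √φ ≤ (1 - Y / n) ^ ((1 - ((n : ℝ) - 1) * b) / 2) / W := by
    rw [le_div_iff₀ hW0]
    exact hmain
  calc φ = √φ ^ 2 := (Real.sq_sqrt hφ.le).symm
    _ ≤ _ := pow_le_pow_left₀ (Real.sqrt_nonneg _) h5 2

/-- GK20b -/
theorem realOKK (goodK : HGoodK) (curveK : HCurveK) {k n : ℕ} (hk : 6 ≤ k) (hn : k ≤ n) {b : ℝ}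
    (hb : (n : ℝ) ^ b = cK k) : RealOK n b (BK k) (tK k) := by
  intro φ Q hφ hQ0 hQ1 H u hu0 hu1
  rcases hQ1.eq_or_lt with rfl | hlt
  · have hb0 := (goodK hk hn hb).1.hβ
    have ht0 : 0 ≤ tK k := Real.sqrt_nonneg _
    have hev : ∀ Q' ∈ Set.Ioo (0:ℝ) 1,
        φ * (1 - u) ^ ((n : ℝ) * b) ≤ (1 - (Q' * u ^ b) ^ (1 / (1 + b))) ^ (1 + b) := by
      intro Q' hQ'
      refine lt_case goodK curveK hk hn hb hφ hQ'.1 hQ'.2 (fun t ht0 ht1 => ?_) hu0 hu1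
      have h1 := H t ht0 ht1
      have h2 : √Q' ≤ √1 := Real.sqrt_le_sqrt hQ'.2.le
      have h3 := mul_le_mul_of_nonneg_left h2 ht0
      linarith
    have hc : ContinuousAt (fun Q' : ℝ => (1 - (Q' * u ^ b) ^ (1 / (1 + b))) ^ (1 + b)) 1 := by
      refine ContinuousAt.rpow_const ?_ (Or.inr (by linarith))
      refine continuousAt_const.sub ?_
      exact ContinuousAt.rpow_const (by fun_prop) (Or.inr (by positivity))
    have ht : Filter.Tendsto (fun Q' : ℝ => (1 - (Q' * u ^ b) ^ (1 / (1 + b))) ^ (1 + b))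
        (𝓝[<] 1) (𝓝 ((1 - (1 * u ^ b) ^ (1 / (1 + b))) ^ (1 + b))) :=
      hc.tendsto.mono_left nhdsWithin_le_nhds
    refine ge_of_tendsto ht ?_
    filter_upwards [Ioo_mem_nhdsLT (zero_lt_one' ℝ)] with Q' hQ'
    exact hev Q' hQ'
  · exact lt_case goodK curveK hk hn hb hφ hQ0 hlt H hu0 hu1

end Pool.Agent.N50.LK
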